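import Mathlib

set_option autoImplicit false
set_option linter.unusedSectionVars false
set_option linter.unusedSimpArgs false

/-!
# The catchment set of limit roots need not be closed

The counterexample is the universal Coxeter group of rank three with all off-diagonal entries of
the Gram matrix equal to `-1`.
-/

namespace Pool.Agent.Results.MP_241ca8_al.CatchmentNotClosed

open scoped LinearAlgebra.Projectivization Topology
open Filter

/-- The usual (quotient) topology of the projective space of a real topological vector space. -/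
instance instTopP (V : Type) [AddCommGroup V] [Module ℝ V] [TopologicalSpace V] :
    TopologicalSpace (ℙ ℝ V) :=
  inferInstanceAs (TopologicalSpace (Quotient (projectivizationSetoid ℝ V)))

/-- A Coxeter matrix on the finite set `S` (the entry `0` stands for `∞`) together with the Gram
matrix of a bilinear form on `S → ℝ` as in the problem. -/
structure Datum (S : Type) [Fintype S] [DecidableEq S] where
  M : CoxeterMatrix S
  gram : Matrix S S ℝ
  symm : ∀ s t, gram s t = gram t s
  diag : ∀ s, gram s s = 1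
  fin : ∀ s t, s ≠ t → M s t ≠ 0 → gram s t = -Real.cos (Real.pi / M s t)
  inf : ∀ s t, s ≠ t → M s t = 0 → gram s t ≤ -1

section Defs

variable {S : Type} [Fintype S] [DecidableEq S] (D : Datum S)

/-- The form `B` on `V = S → ℝ`. -/
def form (x y : S → ℝ) : ℝ := ∑ s, ∑ t, x s * D.gram s t * y t

/-- The simple root `α_s`. -/
def root (s : S) : S → ℝ := Pi.single s 1

/-- The action of the generator `s`: `s(x) = x - 2 B(α_s, x) α_s`. -/
def refl (s : S) (x : S → ℝ) : S → ℝ := x - (2 * form D (root s) x) • root s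

/-- The action of the element `s₁ ⋯ s_k` of `W` given by the word `l = [s₁, …, s_k]`. -/
def act (l : List S) (x : S → ℝ) : S → ℝ := l.foldr (refl D) x

/-- The form has signature `(n - 1, 1)`. -/
def Lorentzian : Prop :=
  ∃ (P : Matrix S S ℝ) (s₀ : S), P.det ≠ 0 ∧
    P.transpose * D.gram * P = Matrix.diagonal fun s => if s = s₀ then -1 else 1

/-- The orbit `W · x̂` in the projective space. -/
def orbit (x : S → ℝ) : Set (ℙ ℝ (S → ℝ)) :=
  {p | ∃ (l : List S) (h : act D l x ≠ 0), p = Projectivization.mk ℝ (act D l x) h}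

/-- `E_x`: the accumulation points of the orbit of `x̂`. -/
def limitPoints (x : S → ℝ) : Set (ℙ ℝ (S → ℝ)) := {p | AccPt p (𝓟 (orbit D x))}

/-- The limit roots `E_Φ`: the accumulation points of the set of all projective roots. -/
def limitRoots : Set (ℙ ℝ (S → ℝ)) := {p | AccPt p (𝓟 {q | ∃ s, q ∈ orbit D (root s)})}

/-- The catchment set `F_Φ` of the limit roots. -/
def catchment : Set (ℙ ℝ (S → ℝ)) :=
  {p | ∃ (x : S → ℝ) (hx : x ≠ 0), p = Projectivization.mk ℝ x hx ∧
    limitPoints D x = limitRoots D}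

end Defs

/-! ### The example -/

/-- The Coxeter matrix of the universal Coxeter group of rank three. -/
def M0 : CoxeterMatrix (Fin 3) where
  M := Matrix.of fun s t => if s = t then 1 else 0
  isSymm := by
    ext s t
    simp [Matrix.transpose_apply, eq_comm]
  diagonal := by intro s; simp
  off_diagonal := by intro s t h; simp [h]

/-- The example. -/
def D0 : Datum (Fin 3) where
  M := M0
  gram := Matrix.of fun s t => if s = t then 1 else -1
  symm := by intro s t; simp [eq_comm]
  diag := by intro s; simp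
  fin := by
    intro s t h h2
    exact absurd (by simp [M0, h]) h2
  inf := by intro s t h _; simp [h]

abbrev V3 := Fin 3 → ℝ

/-- Sum of coordinates. -/
def sm (x : V3) : ℝ := x 0 + x 1 + x 2

/-- Standard scalar product. -/
def dt (x y : V3) : ℝ := x 0 * y 0 + x 1 * y 1 + x 2 * y 2

theorem form_eq (x y : V3) : form D0 x y = 2 * dt x y - sm x * sm y := by
  simp only [form, D0, Fin.sum_univ_three, Matrix.of_apply, dt, sm]
  simp
  ring

theorem form_root (s : Fin 3) (x : V3) : form D0 (root s) x = 2 * x s - sm x := by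
  rw [form_eq]
  fin_cases s <;> simp [root, dt, sm, Pi.single_apply]

theorem refl_apply (s i : Fin 3) (x : V3) :
    refl D0 s x i = x i - 2 * (2 * x s - sm x) * (if i = s then 1 else 0) := by
  simp only [refl, form_root, Pi.sub_apply, Pi.smul_apply, smul_eq_mul]
  simp only [root, Pi.single_apply]

theorem refl_form (s : Fin 3) (x y : V3) : form D0 (refl D0 s x) (refl D0 s y) = form D0 x y := by
  simp only [form_eq, dt, sm, refl_apply]
  fin_cases s <;> simp <;> ring

theorem refl_add (s : Fin 3) (x y : V3) : refl D0 s (x + y) = refl D0 s x + refl D0 s y := by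
  funext i
  simp only [refl_apply, Pi.add_apply, sm]
  ring

theorem refl_smul (s : Fin 3) (c : ℝ) (x : V3) : refl D0 s (c • x) = c • refl D0 s x := by
  funext i
  simp only [refl_apply, Pi.smul_apply, sm, smul_eq_mul]
  ring

theorem act_form (l : List (Fin 3)) (x y : V3) :
    form D0 (act D0 l x) (act D0 l y) = form D0 x y := by
  induction l with
  | nil => rfl
  | cons s l ih => simpa only [act, List.foldr_cons, refl_form] using ih

theorem act_add (l : List (Fin 3)) (x y : V3) :
    act D0 l (x + y) = act D0 l x + act D0 l y := by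
  induction l with
  | nil => rfl
  | cons s l ih =>
    simp only [act, List.foldr_cons] at ih ⊢
    rw [ih, refl_add]

theorem act_smul (l : List (Fin 3)) (c : ℝ) (x : V3) :
    act D0 l (c • x) = c • act D0 l x := by
  induction l with
  | nil => rfl
  | cons s l ih =>
    simp only [act, List.foldr_cons] at ih ⊢
    rw [ih, refl_smul]

theorem act_append (l m : List (Fin 3)) (x : V3) : act D0 (l ++ m) x = act D0 l (act D0 m x) := by
  simp [act, List.foldr_append]

/-- Integral vectors. -/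
def IsInt (x : V3) : Prop := ∀ i, ∃ n : ℤ, x i = n

theorem refl_int (s : Fin 3) {x : V3} (hx : IsInt x) : IsInt (refl D0 s x) := by
  intro i
  obtain ⟨a, ha⟩ := hx 0
  obtain ⟨b, hb⟩ := hx 1
  obtain ⟨c, hc⟩ := hx 2
  obtain ⟨d, hd⟩ := hx s
  obtain ⟨e, he⟩ := hx i
  rw [refl_apply]
  refine ⟨e - 2 * (2 * d - (a + b + c)) * (if i = s then 1 else 0), ?_⟩
  simp only [sm, ha, hb, hc, hd, he]
  split_ifs <;> push_cast <;> ring

theorem act_int (l : List (Fin 3)) {x : V3} (hx : IsInt x) : IsInt (act D0 l x) := by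
  induction l with
  | nil => exact hx
  | cons s l ih =>
    simp only [act, List.foldr_cons] at ih ⊢
    exact refl_int s ih

theorem root_int (s : Fin 3) : IsInt (root s) := by
  intro i
  refine ⟨if i = s then 1 else 0, ?_⟩
  simp only [root, Pi.single_apply]
  split_ifs <;> simp

theorem form_root_root (s : Fin 3) : form D0 (root s) (root s) = 1 := by
  rw [form_root]
  fin_cases s <;> simp [root, sm, Pi.single_apply] <;> norm_num

/-! ### Scalar products -/

theorem dt_self_nonneg (x : V3) : 0 ≤ dt x x := by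
  unfold dt
  have h1 := mul_self_nonneg (x 0)
  have h2 := mul_self_nonneg (x 1)
  have h3 := mul_self_nonneg (x 2)
  linarith

theorem dt_self_pos {x : V3} (hx : x ≠ 0) : 0 < dt x x := by
  have h : 0 ≤ dt x x := dt_self_nonneg x
  refine lt_of_le_of_ne h fun h0 => hx ?_
  unfold dt at h0
  have h1 : x 0 = 0 := by nlinarith [mul_self_nonneg (x 0), mul_self_nonneg (x 1), mul_self_nonneg (x 2)]
  have h2 : x 1 = 0 := by nlinarith [mul_self_nonneg (x 0), mul_self_nonneg (x 1), mul_self_nonneg (x 2)]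
  have h3 : x 2 = 0 := by nlinarith [mul_self_nonneg (x 0), mul_self_nonneg (x 1), mul_self_nonneg (x 2)]
  funext i
  fin_cases i <;> assumption

theorem dt_self_eq_zero {x : V3} (h : dt x x = 0) : x = 0 := by
  by_contra hx
  exact absurd h (dt_self_pos hx).ne'

/-- Equality in the Cauchy-Schwarz inequality. -/
theorem parallel {a v : V3} (ha : a ≠ 0) (h : dt a a * dt v v - dt a v ^ 2 ≤ 0) :
    v = (dt a v / dt a a) • a := by
  have hp := dt_self_pos ha
  have h1 : dt (v - (dt a v / dt a a) • a) (v - (dt a v / dt a a) • a) * dt a a =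
      dt a a * dt v v - dt a v ^ 2 := by
    have e : dt (v - (dt a v / dt a a) • a) (v - (dt a v / dt a a) • a) =
        dt v v - 2 * (dt a v / dt a a) * dt a v + (dt a v / dt a a) ^ 2 * dt a a := by
      simp only [dt, Pi.sub_apply, Pi.smul_apply, smul_eq_mul]
      ring
    rw [e]
    field_simp
    ring
  have h2 : 0 ≤ dt (v - (dt a v / dt a a) • a) (v - (dt a v / dt a a) • a) :=
    dt_self_nonneg _
  have h3 : dt (v - (dt a v / dt a a) • a) (v - (dt a v / dt a a) • a) = 0 := by
    nlinarith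
  exact sub_eq_zero.1 (dt_self_eq_zero h3)

theorem continuous_dt {X : Type} [TopologicalSpace X] {f g : X → V3} (hf : Continuous f)
    (hg : Continuous g) : Continuous fun x => dt (f x) (g x) := by
  unfold dt
  fun_prop

/-! ### The projective space -/

theorem continuous_mk : Continuous fun v : {v : V3 // v ≠ 0} => Projectivization.mk ℝ v.1 v.2 :=
  continuous_quotient_mk'

/-- The squared sine of the angle between `a` and the line. -/
noncomputable def dist2 (a : V3) : ℙ ℝ V3 → ℝ :=
  Projectivization.lift (fun v : {v : V3 // v ≠ 0} => 1 - dt a v.1 ^ 2 / (dt a a * dt v.1 v.1)) (by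
    rintro ⟨v, hv⟩ ⟨w, hw⟩ t h
    simp only at h ⊢
    subst h
    have ht : t ≠ 0 := by
      rintro rfl
      simp at hv
    have e1 : dt a (t • w) = t * dt a w := by
      simp only [dt, Pi.smul_apply, smul_eq_mul]; ring
    have e2 : dt (t • w) (t • w) = t ^ 2 * dt w w := by
      simp only [dt, Pi.smul_apply, smul_eq_mul]; ring
    rw [e1, e2]
    by_cases ha : dt a a = 0
    · simp [ha]
    · have := (dt_self_pos hw).ne'
      field_simp)

theorem dist2_mk (a v : V3) (hv : v ≠ 0) :
    dist2 a (Projectivization.mk ℝ v hv) = 1 - dt a v ^ 2 / (dt a a * dt v v) := rfl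

theorem continuous_dist2 (a : V3) (ha : a ≠ 0) : Continuous (dist2 a) := by
  refine Continuous.quotient_lift ?_ _
  have h1 : Continuous fun v : {v : V3 // v ≠ 0} => dt a v.1 :=
    continuous_dt continuous_const continuous_subtype_val
  have h2 : Continuous fun v : {v : V3 // v ≠ 0} => dt v.1 v.1 :=
    continuous_dt continuous_subtype_val continuous_subtype_val
  refine continuous_const.sub ((h1.pow 2).div (continuous_const.mul h2) ?_)
  intro v
  exact mul_ne_zero (dt_self_pos ha).ne' (dt_self_pos v.2).ne'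

theorem mk_eq_of_smul {v w : V3} (hv : v ≠ 0) (hw : w ≠ 0) (t : ℝ) (h : v = t • w) :
    Projectivization.mk ℝ v hv = Projectivization.mk ℝ w hw := by
  rw [Projectivization.mk_eq_mk_iff']
  exact ⟨t, h.symm⟩

theorem dist2_self (a : V3) (ha : a ≠ 0) : dist2 a (Projectivization.mk ℝ a ha) = 0 := by
  rw [dist2_mk]
  have := (dt_self_pos ha).ne'
  field_simp
  ring

theorem eq_of_dist2 (a : V3) (ha : a ≠ 0) (q : ℙ ℝ V3) (h : dist2 a q ≤ 0) :
    q = Projectivization.mk ℝ a ha := by
  induction q using Projectivization.ind with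
  | h v hv =>
    rw [dist2_mk] at h
    have h1 := dt_self_pos ha
    have h2 := dt_self_pos hv
    have h3 : dt a a * dt v v - dt a v ^ 2 ≤ 0 := by
      have h4 : 1 ≤ dt a v ^ 2 / (dt a a * dt v v) := by linarith
      rw [le_div_iff₀ (mul_pos h1 h2)] at h4
      linarith
    have h5 := parallel ha h3
    exact mk_eq_of_smul hv ha _ h5

theorem isOpen_ne' (q₀ : ℙ ℝ V3) : IsOpen {q | q ≠ q₀} := by
  induction q₀ using Projectivization.ind with
  | h a ha =>
    have h : {q : ℙ ℝ V3 | q ≠ Projectivization.mk ℝ a ha} = dist2 a ⁻¹' (Set.Ioi 0) := by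
      ext q
      constructor
      · intro hq
        by_contra hn
        exact hq (eq_of_dist2 a ha q (not_lt.1 hn))
      · rintro hq rfl
        have : 0 < dist2 a (Projectivization.mk ℝ a ha) := hq
        rw [dist2_self] at this
        exact lt_irrefl _ this
    rw [h]
    exact isOpen_Ioi.preimage (continuous_dist2 a ha)

/-! ### Extraction of sequences -/

theorem finite_int (N : ℕ) : {v : V3 | IsInt v ∧ dt v v ≤ N}.Finite := by
  have h : {v : V3 | IsInt v ∧ dt v v ≤ N} ⊆
      (fun f : Fin 3 → ℤ => fun i => (f i : ℝ)) '' Set.Icc (fun _ => -(N : ℤ)) (fun _ => (N : ℤ)) := by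
    rintro v ⟨hv, hN⟩
    choose f hf using hv
    refine ⟨f, ?_, funext fun i => (hf i).symm⟩
    have hb : ∀ i, (f i) * (f i) ≤ N := by
      intro i
      have h0 : v i * v i ≤ dt v v := by
        unfold dt
        have h1 := mul_self_nonneg (v 0)
        have h2 := mul_self_nonneg (v 1)
        have h3 := mul_self_nonneg (v 2)
        fin_cases i <;> simp <;> linarith
      have h1 : v i * v i ≤ N := h0.trans hN
      rw [hf i] at h1
      exact_mod_cast h1
    constructor
    · intro i
      have := hb i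
      change -(N : ℤ) ≤ f i
      nlinarith
    · intro i
      have := hb i
      change f i ≤ (N : ℤ)
      nlinarith
  exact (Set.Finite.image _ (Set.finite_Icc _ _)).subset h

theorem extract {z a : V3} (hz : IsInt z) (ha : a ≠ 0)
    (hp : Projectivization.mk ℝ a ha ∈ limitPoints D0 z) (n : ℕ) :
    ∃ l : List (Fin 3), (n : ℝ) < dt (act D0 l z) (act D0 l z) ∧
      dt a a * dt (act D0 l z) (act D0 l z) - dt a (act D0 l z) ^ 2 ≤
        (dt a a * dt (act D0 l z) (act D0 l z)) / (n + 1) := by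
  set p := Projectivization.mk ℝ a ha with hpdef
  have hfin := finite_int n
  let T : Set (ℙ ℝ V3) := {q | q ≠ p ∧ ∃ v, ∃ hv : v ≠ 0, (IsInt v ∧ dt v v ≤ n) ∧
    q = Projectivization.mk ℝ v hv}
  have hTfin : T.Finite := by
    classical
    have : T ⊆ (fun v : V3 => if hv : v ≠ 0 then Projectivization.mk ℝ v hv else p) ''
        {v : V3 | IsInt v ∧ dt v v ≤ n} := by
      rintro q ⟨-, v, hv, hv2, rfl⟩
      exact ⟨v, hv2, by simp [hv]⟩
    exact (hfin.image _).subset this
  have hTopen : Tᶜ ∈ 𝓝 p := by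
    have h1 : Tᶜ = ⋂ q ∈ T, {r | r ≠ q} := by
      ext r
      simp only [Set.mem_compl_iff, Set.mem_iInter, Set.mem_ofPred_eq]
      constructor
      · rintro h q hq rfl; exact h hq
      · intro h hr; exact h r hr rfl
    rw [h1]
    refine (Filter.biInter_mem hTfin).2 fun q hq => ?_
    exact (isOpen_ne' q).mem_nhds (fun h => hq.1 h.symm)
  have hU : {q | dist2 a q < 1 / (n + 1)} ∈ 𝓝 p := by
    refine (isOpen_Iio.preimage (continuous_dist2 a ha)).mem_nhds ?_
    change dist2 a p < 1 / (n + 1)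
    rw [hpdef, dist2_self]
    positivity
  have hacc := (accPt_iff_nhds.1 hp) _ (Filter.inter_mem hTopen hU)
  obtain ⟨q, ⟨⟨hq1, hq2⟩, l, hl, rfl⟩, hqp⟩ := hacc
  refine ⟨l, ?_, ?_⟩
  · by_contra hn
    exact hq1 ⟨hqp, _, hl, ⟨act_int l hz, not_lt.1 hn⟩, rfl⟩
  · change dist2 a (Projectivization.mk ℝ (act D0 l z) hl) < 1 / (n + 1) at hq2
    rw [dist2_mk] at hq2
    have h1 := dt_self_pos ha
    have h2 := dt_self_pos hl
    have h3 := mul_pos h1 h2
    have hn : (0 : ℝ) < (n : ℝ) + 1 := by positivity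
    have h4 : 1 - 1 / ((n : ℝ) + 1) < dt a (act D0 l z) ^ 2 /
      (dt a a * dt (act D0 l z) (act D0 l z)) := by linarith
    rw [lt_div_iff₀ h3] at h4
    have h5 : (1 - 1 / ((n : ℝ) + 1)) * (dt a a * dt (act D0 l z) (act D0 l z)) =
      dt a a * dt (act D0 l z) (act D0 l z) -
        (dt a a * dt (act D0 l z) (act D0 l z)) / (n + 1) := by ring
    rw [h5] at h4
    linarith

/-- The unit sphere. -/
def sphere : Set V3 := {x | dt x x = 1}

theorem isCompact_sphere : IsCompact sphere := by
  have h1 : IsCompact (Set.pi Set.univ fun _ : Fin 3 => Set.Icc (-1 : ℝ) 1) :=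
    isCompact_univ_pi fun _ => isCompact_Icc
  refine h1.of_isClosed_subset (isClosed_eq (continuous_dt continuous_id continuous_id)
    continuous_const) ?_
  intro x hx i _
  have hx1 : dt x x = 1 := hx
  unfold dt at hx1
  have h1 := mul_self_nonneg (x 0)
  have h2 := mul_self_nonneg (x 1)
  have h3 := mul_self_nonneg (x 2)
  have h4 : x i * x i ≤ 1 := by fin_cases i <;> simp <;> linarith
  constructor <;> nlinarith

theorem exists_lim (U : Ultrafilter ℕ) (u : ℕ → V3) (hu : ∀ n, u n ∈ sphere) :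
    ∃ x ∈ sphere, Tendsto u U (𝓝 x) := by
  obtain ⟨x, hx, h⟩ := isCompact_sphere.ultrafilter_le_nhds (U.map u) (by
    rw [Filter.le_principal_iff]
    exact Filter.mem_map.2 (Filter.Eventually.of_forall hu))
  exact ⟨x, hx, h⟩

/-- Scale to the unit sphere. -/
noncomputable def nrm (x : V3) : V3 := (1 / Real.sqrt (dt x x)) • x

theorem nrm_mem {x : V3} (hx : x ≠ 0) : nrm x ∈ sphere := by
  have h := dt_self_pos hx
  change dt (nrm x) (nrm x) = 1
  have e : dt (nrm x) (nrm x) = (1 / Real.sqrt (dt x x)) ^ 2 * dt x x := by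
    simp only [nrm, dt, Pi.smul_apply, smul_eq_mul]; ring
  rw [e, div_pow, Real.sq_sqrt h.le, one_pow]
  field_simp

theorem form_smul (c d : ℝ) (x y : V3) : form D0 (c • x) (d • y) = c * d * form D0 x y := by
  simp only [form_eq, dt, sm, Pi.smul_apply, smul_eq_mul]; ring

theorem form_nrm (x y : V3) : form D0 (nrm x) (nrm y) =
    1 / Real.sqrt (dt x x) * (1 / Real.sqrt (dt y y)) * form D0 x y := form_smul _ _ _ _

theorem tendsto_form {l : Filter ℕ} {u v : ℕ → V3} {x y : V3} (hu : Tendsto u l (𝓝 x))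
    (hv : Tendsto v l (𝓝 y)) : Tendsto (fun n => form D0 (u n) (v n)) l (𝓝 (form D0 x y)) := by
  have hc : Continuous fun q : V3 × V3 => form D0 q.1 q.2 := by
    simp only [form_eq, dt, sm]
    fun_prop
  have h := (hc.tendsto (x, y)).comp (hu.prodMk_nhds hv)
  simpa only [Function.comp_def] using h

/-- Light-like orthogonal unit vectors are parallel. -/
theorem parallel_of_light {u y : V3} (hu : u ∈ sphere) (hy : y ∈ sphere)
    (h1 : form D0 u u = 0) (h2 : form D0 y y = 0) (h3 : form D0 u y = 0) :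
    y = dt u y • u := by
  have hu1 : dt u u = 1 := hu
  have hy1 : dt y y = 1 := hy
  rw [form_eq] at h1 h2 h3
  rw [hu1] at h1
  rw [hy1] at h2
  have h4 : dt u y ^ 2 = 1 := by
    have a1 : sm u * sm u = 2 := by linarith
    have a2 : sm y * sm y = 2 := by linarith
    have a3 : 2 * dt u y = sm u * sm y := by linarith
    have a4 : (2 * dt u y) * (2 * dt u y) = (sm u * sm u) * (sm y * sm y) := by rw [a3]; ring
    rw [a1, a2] at a4
    nlinarith
  have hu0 : u ≠ 0 := by
    rintro rfl
    simp [dt] at hu1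
  have h5 := parallel hu0 (v := y) (by rw [hu1, hy1, h4]; norm_num)
  rw [hu1, div_one] at h5
  exact h5

/-! ### The key lemma -/

theorem tendsto_inv_sqrt {F : Filter ℕ} {R : ℕ → ℝ} (h : Tendsto R F atTop) :
    Tendsto (fun n => 1 / Real.sqrt (R n)) F (𝓝 0) :=
  tendsto_const_nhds.div_atTop (Real.tendsto_sqrt_atTop.comp h)

theorem ne_zero_of_dt {x : V3} {r : ℝ} (hr : 0 ≤ r) (h : r < dt x x) : x ≠ 0 := by
  rintro rfl
  simp only [dt, Pi.zero_apply, mul_zero, add_zero] at h
  linarith

theorem ne_zero_of_form {x : V3} (h : form D0 x x ≠ 0) : x ≠ 0 := by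
  rintro rfl
  apply h
  rw [form_eq]
  simp [dt, sm]

theorem nrm_smul (x : V3) (hx : x ≠ 0) : x = Real.sqrt (dt x x) • nrm x := by
  have h := Real.sqrt_ne_zero'.2 (dt_self_pos hx)
  rw [nrm, smul_smul, mul_one_div_cancel h, one_smul]

theorem nrm_ne_zero {x : V3} (hx : x ≠ 0) : nrm x ≠ 0 := by
  have h : dt (nrm x) (nrm x) = 1 := nrm_mem hx
  exact ne_zero_of_dt (r := 0) le_rfl (by rw [h]; exact one_pos)

/-- A unit vector limit of the orbit, along an ultrafilter. -/
theorem exists_direction {z a : V3} (hz : IsInt z) (ha : a ≠ 0)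
    (hp : Projectivization.mk ℝ a ha ∈ limitPoints D0 z) :
    ∃ (l : ℕ → List (Fin 3)) (x : V3), x ∈ sphere ∧ (∃ c : ℝ, x = c • a) ∧
      Tendsto (fun n => dt (act D0 (l n) z) (act D0 (l n) z)) (hyperfilter ℕ : Filter ℕ) atTop ∧
      Tendsto (fun n => nrm (act D0 (l n) z)) (hyperfilter ℕ : Filter ℕ) (𝓝 x) := by
  choose l hl1 hl2 using extract hz ha hp
  have hne : ∀ n, act D0 (l n) z ≠ 0 := fun n => ne_zero_of_dt (Nat.cast_nonneg n) (hl1 n)
  obtain ⟨x, hx, hux⟩ := exists_lim (hyperfilter ℕ) (fun n => nrm (act D0 (l n) z))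
    (fun n => nrm_mem (hne n))
  have hR : Tendsto (fun n => dt (act D0 (l n) z) (act D0 (l n) z)) atTop atTop :=
    tendsto_atTop_mono (fun n => (hl1 n).le) tendsto_natCast_atTop_atTop
  refine ⟨l, x, hx, ?_, hR.mono_left Nat.hyperfilter_le_atTop, hux⟩
  have hx1 : dt x x = 1 := hx
  have h1 : ∀ n, dt a a - dt a (nrm (act D0 (l n) z)) ^ 2 ≤ dt a a / (n + 1) := by
    intro n
    have h2 := hl2 n
    have h3 := dt_self_pos (hne n)
    have e1 : dt a (nrm (act D0 (l n) z)) =
        1 / Real.sqrt (dt (act D0 (l n) z) (act D0 (l n) z)) * dt a (act D0 (l n) z) := by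
      simp only [nrm, dt, Pi.smul_apply, smul_eq_mul]; ring
    rw [e1, mul_pow, div_pow, Real.sq_sqrt h3.le, one_pow]
    have h4 : dt a a - 1 / dt (act D0 (l n) z) (act D0 (l n) z) * dt a (act D0 (l n) z) ^ 2 =
        (dt a a * dt (act D0 (l n) z) (act D0 (l n) z) - dt a (act D0 (l n) z) ^ 2) /
          dt (act D0 (l n) z) (act D0 (l n) z) := by
      field_simp
    rw [h4, div_le_iff₀ h3]
    refine h2.trans (le_of_eq ?_)
    ring
  have h2 : Tendsto (fun n => dt a a - dt a (nrm (act D0 (l n) z)) ^ 2)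
      (hyperfilter ℕ : Filter ℕ) (𝓝 (dt a a - dt a x ^ 2)) := by
    have hc : Continuous fun y : V3 => dt a a - dt a y ^ 2 :=
      continuous_const.sub ((continuous_dt continuous_const continuous_id).pow 2)
    exact (hc.tendsto x).comp hux
  have h3 : Tendsto (fun n : ℕ => dt a a / ((n : ℝ) + 1)) (hyperfilter ℕ : Filter ℕ) (𝓝 0) := by
    refine Tendsto.mono_left ?_ Nat.hyperfilter_le_atTop
    exact tendsto_const_nhds.div_atTop
      (tendsto_atTop_add_const_right _ _ tendsto_natCast_atTop_atTop)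
  have h4 : dt a a - dt a x ^ 2 ≤ 0 := le_of_tendsto_of_tendsto' h2 h3 h1
  exact ⟨_, parallel ha (by rw [hx1, mul_one]; exact h4)⟩

theorem light_of_tendsto {v w : ℕ → V3} {x y : V3} {U : Filter ℕ} [U.NeBot]
    {c : ℝ} (hc : ∀ n, form D0 (v n) (w n) = c)
    (hv : Tendsto (fun n => dt (v n) (v n)) U atTop)
    (hw : Tendsto (fun n => dt (w n) (w n)) U atTop)
    (hvx : Tendsto (fun n => nrm (v n)) U (𝓝 x)) (hwy : Tendsto (fun n => nrm (w n)) U (𝓝 y)) :
    form D0 x y = 0 := by
  have h1 := tendsto_form hvx hwy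
  have h2 : Tendsto (fun n => form D0 (nrm (v n)) (nrm (w n))) U (𝓝 (0 * 0 * c)) := by
    simp only [form_nrm, hc]
    exact ((tendsto_inv_sqrt hv).mul (tendsto_inv_sqrt hw)).mul_const c
  rw [mul_zero, zero_mul] at h2
  exact tendsto_nhds_unique h1 h2

theorem light {z a : V3} (hz : IsInt z) (ha : a ≠ 0)
    (hp : Projectivization.mk ℝ a ha ∈ limitPoints D0 z) : form D0 a a = 0 := by
  obtain ⟨l, x, hx, ⟨c, hc⟩, h1, h2⟩ := exists_direction hz ha hp
  have h3 : form D0 x x = 0 :=
    light_of_tendsto (fun n => act_form (l n) z z) h1 h1 h2 h2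
  rw [hc, form_smul] at h3
  have hc0 : c ≠ 0 := by
    rintro rfl
    rw [zero_smul] at hc
    have : dt x x = 1 := hx
    rw [hc] at this
    simp [dt] at this
  rcases mul_eq_zero.1 h3 with h | h
  · exact absurd h (mul_ne_zero hc0 hc0)
  · exact h

section Bounded

variable (U : Filter ℕ) (l : ℕ → List (Fin 3))

/-- Boundedness along the filter of all translates. -/
def Qb (x : V3) : Prop :=
  ∀ m : List (Fin 3), ∃ C : ℝ, ∀ᶠ n in U,
    dt (act D0 (l n) (act D0 m x)) (act D0 (l n) (act D0 m x)) ≤ C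

variable {U l}

theorem Qb.add {x y : V3} (hx : Qb U l x) (hy : Qb U l y) : Qb U l (x + y) := by
  intro m
  obtain ⟨C, hC⟩ := hx m
  obtain ⟨E, hE⟩ := hy m
  refine ⟨2 * C + 2 * E, ?_⟩
  filter_upwards [hC, hE] with n h1 h2
  rw [act_add, act_add]
  set u := act D0 (l n) (act D0 m x)
  set w := act D0 (l n) (act D0 m y)
  have e : dt (u + w) (u + w) = 2 * dt u u + 2 * dt w w - dt (u - w) (u - w) := by
    simp only [dt, Pi.add_apply, Pi.sub_apply]; ring
  have h3 := dt_self_nonneg (u - w)
  rw [e]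
  linarith

theorem Qb.smul {x : V3} (hx : Qb U l x) (c : ℝ) : Qb U l (c • x) := by
  intro m
  obtain ⟨C, hC⟩ := hx m
  refine ⟨c ^ 2 * C, ?_⟩
  filter_upwards [hC] with n h1
  rw [act_smul, act_smul]
  set u := act D0 (l n) (act D0 m x)
  have e : dt (c • u) (c • u) = c ^ 2 * dt u u := by
    simp only [dt, Pi.smul_apply, smul_eq_mul]; ring
  rw [e]
  exact mul_le_mul_of_nonneg_left h1 (sq_nonneg c)

theorem Qb.mirror {x : V3} (hx : Qb U l x) (s : Fin 3) : Qb U l (refl D0 s x) := by
  intro m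
  obtain ⟨C, hC⟩ := hx (m ++ [s])
  refine ⟨C, ?_⟩
  filter_upwards [hC] with n h1
  rw [act_append] at h1
  exact h1

theorem Qb.all {x : V3} (hx : Qb U l x) (hf : form D0 x x ≠ 0) (y : V3) : Qb U l y := by
  obtain ⟨s, hs⟩ : ∃ s, form D0 (root s) x ≠ 0 := by
    by_contra hcon
    push Not at hcon
    apply hf
    have h0 := hcon 0
    have h1 := hcon 1
    have h2 := hcon 2
    rw [form_root] at h0 h1 h2
    rw [form_eq]
    have : 2 * dt x x = x 0 * (2 * x 0) + x 1 * (2 * x 1) + x 2 * (2 * x 2) := by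
      simp only [dt]; ring
    rw [this, show 2 * x 0 = sm x by linarith, show 2 * x 1 = sm x by linarith,
      show 2 * x 2 = sm x by linarith]
    simp only [sm]
    ring
  have hroot : Qb U l (root s) := by
    have e : root s = (1 / (2 * form D0 (root s) x)) • (x + (-1 : ℝ) • refl D0 s x) := by
      simp only [Pool.Agent.Results.MP_241ca8_al.CatchmentNotClosed.refl]
      funext i
      simp only [Pi.smul_apply, Pi.add_apply, Pi.sub_apply, smul_eq_mul]
      field_simp
      ring
    rw [e]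
    exact (hx.add ((hx.mirror s).smul _)).smul _
  have hroots : ∀ t, Qb U l (root t) := by
    intro t
    by_cases hts : t = s
    · rw [hts]; exact hroot
    · have e : root t = (1 / 2 : ℝ) • (refl D0 t (root s) + (-1 : ℝ) • root s) := by
        have h1 : form D0 (root t) (root s) = -1 := by
          rw [form_root]
          revert hts
          fin_cases t <;> fin_cases s <;> simp [root, sm, Pi.single_apply]
        simp only [Pool.Agent.Results.MP_241ca8_al.CatchmentNotClosed.refl]
        rw [h1]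
        funext i
        simp only [Pi.smul_apply, Pi.add_apply, Pi.sub_apply, smul_eq_mul]
        ring
      rw [e]
      exact ((hroot.mirror t).add (hroot.smul _)).smul _
  have e : y = y 0 • root 0 + y 1 • root 1 + y 2 • root 2 := by
    funext i
    fin_cases i <;> simp [root, Pi.single_apply]
  rw [e]
  exact (((hroots 0).smul _).add ((hroots 1).smul _)).add ((hroots 2).smul _)

end Bounded

theorem limit_subset {z z' : V3} (hz : IsInt z) (hz' : form D0 z' z' ≠ 0) :
    limitPoints D0 z ⊆ limitPoints D0 z' := by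
  intro p hp
  induction p using Projectivization.ind with
  | h a ha =>
  have hlight := light hz ha hp
  obtain ⟨l, x, hx, ⟨c, hc⟩, h1, h2⟩ := exists_direction hz ha hp
  have h3 : form D0 x x = 0 :=
    light_of_tendsto (fun n => act_form (l n) z z) h1 h1 h2 h2
  -- a translate whose orbit is unbounded
  obtain ⟨m, hm⟩ : ∃ m : List (Fin 3), Tendsto (fun n =>
      dt (act D0 (l n) (act D0 m z')) (act D0 (l n) (act D0 m z')))
      (hyperfilter ℕ : Filter ℕ) atTop := by
    by_contra hcon
    push Not at hcon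
    have hQ : Qb (hyperfilter ℕ : Filter ℕ) l z' := by
      intro m
      have h4 := hcon m
      rw [tendsto_atTop] at h4
      push Not at h4
      obtain ⟨C, hC⟩ := h4
      refine ⟨C, ?_⟩
      filter_upwards [hC] with n hn
      exact hn.le
    obtain ⟨C, hC⟩ := (hQ.all hz' z) []
    have h6 := (tendsto_atTop.1 h1 (C + 1)).and hC
    obtain ⟨n, hn1, hn2⟩ := h6.exists
    have : act D0 (l n) (act D0 [] z) = act D0 (l n) z := rfl
    rw [this] at hn2
    linarith
  have hyf : ∀ n, form D0 (act D0 (l n) (act D0 m z')) (act D0 (l n) (act D0 m z')) =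
      form D0 z' z' := fun n => by rw [act_form, act_form]
  have hyne : ∀ n, act D0 (l n) (act D0 m z') ≠ 0 := fun n =>
    ne_zero_of_form (by rw [hyf]; exact hz')
  obtain ⟨y, hy, huy⟩ := exists_lim (hyperfilter ℕ)
    (fun n => nrm (act D0 (l n) (act D0 m z'))) (fun n => nrm_mem (hyne n))
  have h4 : form D0 y y = 0 := light_of_tendsto hyf hm hm huy huy
  have h5 : form D0 x y = 0 := light_of_tendsto
    (fun n => act_form (l n) z (act D0 m z')) h1 hm h2 huy
  have h6 := parallel_of_light hx hy h3 h4 h5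
  have hy0 : y ≠ 0 := by
    have : dt y y = 1 := hy
    exact ne_zero_of_dt (r := 0) le_rfl (by rw [this]; exact one_pos)
  have hpy : Projectivization.mk ℝ a ha = Projectivization.mk ℝ y hy0 := by
    symm
    refine mk_eq_of_smul hy0 ha (dt x y * c) ?_
    rw [mul_smul, ← hc]
    exact h6
  change AccPt _ _
  rw [accPt_iff_nhds]
  intro N hN
  rw [hpy] at hN
  have h7 : Tendsto (fun n => (⟨nrm (act D0 (l n) (act D0 m z')), nrm_ne_zero (hyne n)⟩ :
      {v : V3 // v ≠ 0})) (hyperfilter ℕ : Filter ℕ) (𝓝 ⟨y, hy0⟩) := by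
    rw [tendsto_subtype_rng]
    exact huy
  have h8 := (continuous_mk.tendsto ⟨y, hy0⟩).comp h7
  obtain ⟨n, hn⟩ := (h8.eventually_mem hN).exists
  refine ⟨_, ⟨hn, l n ++ m, ?_, ?_⟩, ?_⟩
  · rw [act_append]; exact hyne n
  · refine (mk_eq_of_smul (hyne n) (nrm_ne_zero (hyne n)) _ (nrm_smul _ (hyne n))).symm.trans ?_
    congr 1
    exact (act_append _ _ _).symm
  · intro heq
    have h9 : Projectivization.mk ℝ (act D0 (l n) (act D0 m z')) (hyne n) =
        Projectivization.mk ℝ a ha :=
      (mk_eq_of_smul (hyne n) (nrm_ne_zero (hyne n)) _ (nrm_smul _ (hyne n))).trans heq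
    rw [Projectivization.mk_eq_mk_iff'] at h9
    obtain ⟨t, ht⟩ := h9
    apply hz'
    rw [← hyf n, ← ht, form_smul, hlight, mul_zero]

/-! ### The catchment set is not closed -/

theorem limitRoots_eq {z : V3} (hz : IsInt z) (hf : form D0 z z ≠ 0) :
    limitPoints D0 z = limitRoots D0 := by
  apply Set.Subset.antisymm
  · intro p hp
    have h1 : p ∈ limitPoints D0 (root 0) :=
      limit_subset hz (by rw [form_root_root]; exact one_ne_zero) hp
    exact AccPt.mono h1 (Filter.principal_mono.2 fun q hq => ⟨0, hq⟩)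
  · intro p hp
    have hp' : AccPt p (𝓟 {q | ∃ s, q ∈ orbit D0 (root s)}) := hp
    obtain ⟨s, hs⟩ : ∃ s, p ∈ limitPoints D0 (root s) := by
      by_contra hcon
      push Not at hcon
      have h1 : ∀ s, ∀ᶠ y in 𝓝 p, ¬ (y ≠ p ∧ y ∈ orbit D0 (root s)) := by
        intro s
        have h2 := hcon s
        change ¬ AccPt p (𝓟 _) at h2
        rw [accPt_iff_frequently] at h2
        exact Filter.not_frequently.1 h2
      rw [accPt_iff_frequently] at hp'
      apply hp'
      filter_upwards [Filter.eventually_all.2 h1] with y hy h3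
      obtain ⟨h4, s, h5⟩ := h3
      exact hy s ⟨h4, h5⟩
    exact limit_subset (root_int s) hf hs

theorem light_limitRoots {a : V3} (ha : a ≠ 0)
    (hp : Projectivization.mk ℝ a ha ∈ limitRoots D0) : form D0 a a = 0 := by
  rw [← limitRoots_eq (root_int 0) (by rw [form_root_root]; exact one_ne_zero)] at hp
  exact light (root_int 0) ha hp

theorem orbit_smul (x : V3) (t : ℝ) (ht : t ≠ 0) : orbit D0 (t • x) = orbit D0 x := by
  ext p
  constructor
  · rintro ⟨l, h, rfl⟩
    rw [act_smul] at h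
    have h' : act D0 l x ≠ 0 := fun h0 => h (by rw [h0, smul_zero])
    exact ⟨l, h', mk_eq_of_smul _ h' t (act_smul l t x)⟩
  · rintro ⟨l, h, rfl⟩
    have h' : act D0 l (t • x) ≠ 0 := by
      rw [act_smul]; exact smul_ne_zero ht h
    exact ⟨l, h', (mk_eq_of_smul h' h t (act_smul l t x)).symm⟩

/-- The normal vector of the axis. -/
def v1 : V3 := ![1, -1, 1]

/-- The contracted eigenvector. -/
noncomputable def vm : V3 := ![3 - Real.sqrt 5, 2, 3 + Real.sqrt 5]

/-- The point of the closure outside the catchment set. -/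
noncomputable def x0 : V3 := ![4 - Real.sqrt 5, 1, 4 + Real.sqrt 5]

theorem sq5 : Real.sqrt 5 * Real.sqrt 5 = 5 := Real.mul_self_sqrt (by norm_num)

theorem x0_eq : x0 = v1 + vm := by
  funext i
  fin_cases i <;> simp [x0, v1, vm] <;> ring

theorem act_word (x : V3) : act D0 [0, 1, 2] x =
    ![15 * x 0 + 10 * x 1 - 6 * x 2, 6 * x 0 + 3 * x 1 - 2 * x 2, 2 * x 0 + 2 * x 1 - x 2] := by
  funext i
  simp only [act, List.foldr_cons, List.foldr_nil]
  fin_cases i <;> simp [refl_apply, sm] <;> ring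

theorem act_v1 : act D0 [0, 1, 2] v1 = (-1 : ℝ) • v1 := by
  rw [act_word]
  funext i
  fin_cases i <;> simp [v1] <;> norm_num

theorem act_vm : act D0 [0, 1, 2] vm = (9 - 4 * Real.sqrt 5) • vm := by
  rw [act_word]
  funext i
  fin_cases i <;> simp [vm] <;> nlinarith [sq5]

/-- Powers of the word. -/
def wd : ℕ → List (Fin 3)
  | 0 => []
  | n + 1 => [0, 1, 2] ++ wd n

theorem act_wd_v1 (n : ℕ) : act D0 (wd n) v1 = ((-1 : ℝ) ^ n) • v1 := by
  induction n with
  | zero => simp [wd, act]
  | succ n ih =>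
    rw [wd, act_append, ih, act_smul, act_v1, smul_smul, pow_succ]

theorem act_wd_vm (n : ℕ) : act D0 (wd n) vm = ((9 - 4 * Real.sqrt 5) ^ n) • vm := by
  induction n with
  | zero => simp [wd, act]
  | succ n ih =>
    rw [wd, act_append, ih, act_smul, act_vm, smul_smul, pow_succ]

theorem act_wd_x0 (n : ℕ) :
    act D0 (wd (2 * n)) x0 = v1 + (((9 - 4 * Real.sqrt 5) ^ 2) ^ n) • vm := by
  rw [x0_eq, act_add, act_wd_v1, act_wd_vm, pow_mul, pow_mul]
  norm_num

theorem mu_bounds : 0 < 9 - 4 * Real.sqrt 5 ∧ 9 - 4 * Real.sqrt 5 < 1 := by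
  have h1 : (2.2 : ℝ) < Real.sqrt 5 := by
    rw [Real.lt_sqrt (by norm_num)]; norm_num
  have h2 : Real.sqrt 5 < 2.24 := by
    rw [Real.sqrt_lt' (by norm_num)]; norm_num
  constructor <;> linarith

theorem v1_ne : v1 ≠ 0 := by
  intro h
  have := congrFun h 0
  simp [v1] at this

theorem x0_ne : x0 ≠ 0 := by
  intro h
  have := congrFun h 1
  simp [x0] at this

theorem form_v1 : form D0 v1 v1 = 5 := by
  rw [form_eq]
  simp [dt, sm, v1]
  norm_num

theorem sum_ne (r : ℝ) : v1 + r • vm ≠ 0 := by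
  intro h
  have h0 := congrFun h 0
  have h1 := congrFun h 1
  simp only [v1, vm, Pi.add_apply, Pi.smul_apply, smul_eq_mul, Pi.zero_apply,
    Matrix.cons_val_zero, Matrix.cons_val_one] at h0 h1
  have h2 : r = 1 / 2 := by linarith
  rw [h2] at h0
  have h3 : Real.sqrt 5 = 5 := by linarith
  have := sq5
  rw [h3] at this
  norm_num at this

theorem limit_x0 : Projectivization.mk ℝ v1 v1_ne ∈ limitPoints D0 x0 := by
  change AccPt _ _
  rw [accPt_iff_nhds]
  intro N hN
  obtain ⟨hm1, hm2⟩ := mu_bounds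
  have hsq : (9 - 4 * Real.sqrt 5) ^ 2 < 1 := by nlinarith
  have h1 : Tendsto (fun n : ℕ => v1 + (((9 - 4 * Real.sqrt 5) ^ 2) ^ n) • vm) atTop (𝓝 v1) := by
    have h2 : Tendsto (fun n : ℕ => ((9 - 4 * Real.sqrt 5) ^ 2) ^ n) atTop (𝓝 0) :=
      tendsto_pow_atTop_nhds_zero_of_lt_one (by positivity) hsq
    have h3 := (h2.smul_const vm).const_add v1
    simpa using h3
  have h2 : Tendsto (fun n : ℕ => (⟨v1 + (((9 - 4 * Real.sqrt 5) ^ 2) ^ n) • vm, sum_ne _⟩ :
      {v : V3 // v ≠ 0})) atTop (𝓝 ⟨v1, v1_ne⟩) := by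
    rw [tendsto_subtype_rng]
    exact h1
  have h3 := (continuous_mk.tendsto ⟨v1, v1_ne⟩).comp h2
  obtain ⟨n, hn⟩ := (h3.eventually_mem hN).exists
  have hne : act D0 (wd (2 * n)) x0 ≠ 0 := by rw [act_wd_x0]; exact sum_ne _
  refine ⟨_, ⟨hn, wd (2 * n), hne, ?_⟩, ?_⟩
  · change Projectivization.mk ℝ _ _ = _
    congr 1
    exact (act_wd_x0 n).symm
  · intro heq
    change Projectivization.mk ℝ _ _ = _ at heq
    rw [Projectivization.mk_eq_mk_iff'] at heq
    obtain ⟨t, ht⟩ := heq
    have h0 := congrFun ht 0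
    have h1 := congrFun ht 1
    simp only [v1, vm, Pi.add_apply, Pi.smul_apply, smul_eq_mul,
      Matrix.cons_val_zero, Matrix.cons_val_one] at h0 h1
    set r := ((9 - 4 * Real.sqrt 5) ^ 2) ^ n with hr
    have hr0 : 0 < r := by positivity
    have h5 : r * (5 - Real.sqrt 5) = 0 := by linarith
    rcases mul_eq_zero.1 h5 with h | h
    · exact hr0.ne' h
    · have h6 : Real.sqrt 5 = 5 := by linarith
      have := sq5
      rw [h6] at this
      norm_num at this

theorem x0_not_mem : Projectivization.mk ℝ x0 x0_ne ∉ catchment D0 := by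
  rintro ⟨x, hx, heq, hE⟩
  rw [Projectivization.mk_eq_mk_iff'] at heq
  obtain ⟨t, ht⟩ := heq
  have ht0 : t ≠ 0 := by
    rintro rfl
    rw [zero_smul] at ht
    exact x0_ne ht.symm
  have h1 : limitPoints D0 x0 = limitPoints D0 x := by
    unfold limitPoints
    rw [← ht, orbit_smul x t ht0]
  have h2 := limit_x0
  rw [h1, hE] at h2
  have h3 := light_limitRoots v1_ne h2
  rw [form_v1] at h3
  norm_num at h3

/-- Integral approximations. -/
noncomputable def zz (N : ℕ) : V3 :=
  ![4 * N - (⌊Real.sqrt 5 * N⌋₊ : ℝ), N, 4 * N + (⌊Real.sqrt 5 * N⌋₊ : ℝ)]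

theorem zz_int (N : ℕ) : IsInt (zz N) := by
  intro i
  fin_cases i
  · exact ⟨4 * N - ⌊Real.sqrt 5 * N⌋₊, by simp [zz]⟩
  · exact ⟨N, by simp [zz]⟩
  · exact ⟨4 * N + ⌊Real.sqrt 5 * N⌋₊, by simp [zz]⟩

theorem zz_form (N : ℕ) (hN : 4 ≤ N) : form D0 (zz N) (zz N) ≠ 0 := by
  have h1 : (2.2 : ℝ) < Real.sqrt 5 := by
    rw [Real.lt_sqrt (by norm_num)]; norm_num
  have h2 : Real.sqrt 5 * N < (⌊Real.sqrt 5 * N⌋₊ : ℝ) + 1 := Nat.lt_floor_add_one _
  have hN' : (4 : ℝ) ≤ N := by exact_mod_cast hN
  have h3 : 1.95 * (N : ℝ) ≤ (⌊Real.sqrt 5 * N⌋₊ : ℝ) := by nlinarith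
  rw [form_eq]
  simp only [dt, sm, zz, Matrix.cons_val_zero, Matrix.cons_val_one, Matrix.cons_val_two,
    Matrix.head_cons, Matrix.tail_cons, Matrix.cons_val]
  set k : ℝ := (⌊Real.sqrt 5 * N⌋₊ : ℝ)
  have h4 : (1.95 * (N : ℝ)) * (1.95 * N) ≤ k * k := by
    apply mul_self_le_mul_self (by positivity) h3
  intro h0
  nlinarith

theorem zz_ne (N : ℕ) (hN : 4 ≤ N) : zz N ≠ 0 := ne_zero_of_form (zz_form N hN)

theorem zz_tendsto : Tendsto (fun N : ℕ => (1 / (N : ℝ)) • zz N) atTop (𝓝 x0) := by
  have h1 : Tendsto (fun N : ℕ => (⌊Real.sqrt 5 * N⌋₊ : ℝ) / N) atTop (𝓝 (Real.sqrt 5)) :=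
    (tendsto_nat_floor_mul_div_atTop (Real.sqrt_nonneg 5)).comp tendsto_natCast_atTop_atTop
  rw [tendsto_pi_nhds]
  intro i
  fin_cases i
  · have h2 : Tendsto (fun N : ℕ => 4 - (⌊Real.sqrt 5 * N⌋₊ : ℝ) / N) atTop
        (𝓝 (4 - Real.sqrt 5)) := tendsto_const_nhds.sub h1
    refine h2.congr' ?_
    filter_upwards [eventually_ge_atTop 1] with N hN
    have hN' : (N : ℝ) ≠ 0 := by positivity
    simp [zz]
    field_simp
  · have h2 : Tendsto (fun N : ℕ => (1 : ℝ)) atTop (𝓝 1) := tendsto_const_nhds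
    refine h2.congr' ?_
    filter_upwards [eventually_ge_atTop 1] with N hN
    have hN' : (N : ℝ) ≠ 0 := by positivity
    simp [zz]
    field_simp
  · have h2 : Tendsto (fun N : ℕ => 4 + (⌊Real.sqrt 5 * N⌋₊ : ℝ) / N) atTop
        (𝓝 (4 + Real.sqrt 5)) := tendsto_const_nhds.add h1
    refine h2.congr' ?_
    filter_upwards [eventually_ge_atTop 1] with N hN
    have hN' : (N : ℝ) ≠ 0 := by positivity
    simp [zz]
    field_simp

theorem x0_mem_closure : Projectivization.mk ℝ x0 x0_ne ∈ closure (catchment D0) := by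
  have hne : ∀ N : ℕ, (1 / ((N + 4 : ℕ) : ℝ)) • zz (N + 4) ≠ 0 := fun N =>
    smul_ne_zero (by positivity) (zz_ne _ (by omega))
  have h1 : Tendsto (fun N : ℕ => (1 / ((N + 4 : ℕ) : ℝ)) • zz (N + 4)) atTop (𝓝 x0) :=
    zz_tendsto.comp (tendsto_add_atTop_nat 4)
  have h2 : Tendsto (fun N : ℕ => (⟨(1 / ((N + 4 : ℕ) : ℝ)) • zz (N + 4), hne N⟩ :
      {v : V3 // v ≠ 0})) atTop (𝓝 ⟨x0, x0_ne⟩) := by
    rw [tendsto_subtype_rng]
    exact h1
  have h3 := (continuous_mk.tendsto ⟨x0, x0_ne⟩).comp h2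
  refine mem_closure_of_tendsto h3 (Filter.Eventually.of_forall fun N => ?_)
  refine ⟨zz (N + 4), zz_ne _ (by omega), mk_eq_of_smul _ _ _ rfl, ?_⟩
  exact limitRoots_eq (zz_int _) (zz_form _ (by omega))

theorem lorentzian : Lorentzian D0 := by
  refine ⟨!![1 / 2, 35 / 24, 37 / 24; -1 / 2, 35 / 24, 37 / 24; 0, -1 / 6, 1 / 6], 2, ?_, ?_⟩
  · rw [Matrix.det_fin_three]
    simp
    norm_num
  · ext i j
    fin_cases i <;> fin_cases j <;>
      simp [Matrix.mul_apply, Fin.sum_univ_three, D0] <;> norm_num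

/-- **The catchment set need not be closed.** For the universal Coxeter group of rank three, with
`B(α_s, α_t) = -1` for all `s ≠ t`, which is a Lorentzian Coxeter system, the catchment set `F_Φ` of
the limit roots is not a closed subset of the projective space. -/
theorem result : ∃ D : Datum (Fin 3), (∀ s t, s ≠ t → D.M s t = 0 ∧ D.gram s t = -1) ∧
    Lorentzian D ∧ ¬ IsClosed (catchment D) := by
  refine ⟨D0, ?_, lorentzian, fun h => ?_⟩
  · intro s t h
    exact ⟨by change M0.M s t = 0; simp [M0, h], by simp [D0, h]⟩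
  · exact x0_not_mem (h.closure_eq ▸ x0_mem_closure)

end Pool.Agent.Results.MP_241ca8_al.CatchmentNotClosed
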